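import Mathlib

/-!
# MP_d698c5_an: a metrizable locally compact right topological group without Haar measure

Let `χ : ℤ_2 → (0, ∞)` be a (discontinuous) homomorphism with `χ(1) = 2`. On `ℤ_2 × ℝ` with the
product topology put `(u, v) (s, t) = (u + s, χ(s) v + t)`. Right translations are continuous. An
invariant measure of the compact-by-interval set `ℤ_2 × [0, 1)` would be equal to that of its
translate `ℤ_2 × [0, 2)` by `(1, 0)`, which is the disjoint union of two translates of
`ℤ_2 × [0, 1)`.
-/

set_option autoImplicit false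

open MeasureTheory Set Topology

namespace Pool.Agent.Results.MP_d698c5_an.NoHaar

/-- A right topological group: all right translations `x ↦ x g` are continuous. -/
def RightTopological (G : Type) [Group G] [TopologicalSpace G] : Prop :=
  ∀ g : G, Continuous fun x : G => x * g

/-- Invariance under right translations: `μ(Eg) = μ(E)` for every `g` and every Borel set `E`. -/
def RightInvariant {G : Type} [Group G] [MeasurableSpace G] (μ : Measure G) : Prop :=
  ∀ (g : G) (E : Set G), MeasurableSet E → μ ((fun x => x * g) '' E) = μ E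

/-! ### the example -/

lemma exists_functional : ∃ φ : ℚ_[2] →ₗ[ℚ] ℚ, φ 1 = 1 := by
  have h1 : ¬ ∀ φ : Module.Dual ℚ ℚ_[2], φ 1 = 0 := by
    rw [Module.forall_dual_apply_eq_zero_iff ℚ (1 : ℚ_[2])]
    exact one_ne_zero
  push Not at h1
  obtain ⟨φ, hφ⟩ := h1
  refine ⟨(φ 1)⁻¹ • φ, ?_⟩
  rw [LinearMap.smul_apply, smul_eq_mul, inv_mul_cancel₀ hφ]

/-- the functional -/
noncomputable def ph : ℚ_[2] →ₗ[ℚ] ℚ := exists_functional.choose

lemma ph_one : ph 1 = 1 := exists_functional.choose_spec

/-- the homomorphism `χ` -/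
noncomputable def chi (s : ℤ_[2]) : ℝ := Real.exp (Real.log 2 * ((ph (s : ℚ_[2]) : ℚ) : ℝ))

lemma chi_add (s t : ℤ_[2]) : chi (s + t) = chi s * chi t := by
  unfold chi
  rw [← Real.exp_add, PadicInt.coe_add, map_add]
  push_cast
  ring_nf

lemma chi_zero : chi 0 = 1 := by
  unfold chi
  simp

lemma chi_one : chi 1 = 2 := by
  unfold chi
  rw [PadicInt.coe_one, ph_one]
  simp [Real.exp_log]

/-- the space `ℤ_2 × ℝ` -/
def GG : Type := ℤ_[2] × ℝ

/-- an element of the space -/
def mk (u : ℤ_[2]) (v : ℝ) : GG := (u, v)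

/-- the product topology -/
noncomputable instance : TopologicalSpace GG := inferInstanceAs (TopologicalSpace (ℤ_[2] × ℝ))

/-- the multiplication `(u, v) (s, t) = (u + s, χ(s) v + t)` -/
noncomputable instance : Mul GG := ⟨fun a b => ((a.1 + b.1, chi b.1 * a.2 + b.2) : ℤ_[2] × ℝ)⟩

/-- the unit -/
noncomputable instance : One GG := ⟨((0, 0) : ℤ_[2] × ℝ)⟩

/-- the inverse -/
noncomputable instance : Inv GG := ⟨fun a => ((-a.1, -(chi (-a.1) * a.2)) : ℤ_[2] × ℝ)⟩

lemma mul_def (a b : GG) : a * b = ((a.1 + b.1, chi b.1 * a.2 + b.2) : ℤ_[2] × ℝ) := rfl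

/-- the group -/
noncomputable instance : Group GG where
  mul_assoc a b c := by
    apply Prod.ext
    · show a.1 + b.1 + c.1 = a.1 + (b.1 + c.1)
      ring
    · show chi c.1 * (chi b.1 * a.2 + b.2) + c.2 = chi (b.1 + c.1) * a.2 + (chi c.1 * b.2 + c.2)
      rw [chi_add]; ring
  one_mul a := by
    apply Prod.ext
    · show 0 + a.1 = a.1
      ring
    · show chi a.1 * 0 + a.2 = a.2
      ring
  mul_one a := by
    apply Prod.ext
    · show a.1 + 0 = a.1
      ring
    · show chi 0 * a.2 + 0 = a.2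
      rw [chi_zero]; ring
  inv_mul_cancel a := by
    apply Prod.ext
    · show -a.1 + a.1 = 0
      ring
    · show chi a.1 * -(chi (-a.1) * a.2) + a.2 = 0
      have h := chi_add a.1 (-a.1)
      rw [add_neg_cancel, chi_zero] at h
      have : chi a.1 * -(chi (-a.1) * a.2) = -(chi a.1 * chi (-a.1)) * a.2 := by ring
      rw [this, ← h]; ring

/-- the set `ℤ_2 × [a, b)` -/
def slab (a b : ℝ) : Set GG := {z | a ≤ z.2 ∧ z.2 < b}

lemma cont_snd : Continuous (fun z : GG => z.2) := continuous_snd (X := ℤ_[2]) (Y := ℝ)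

lemma translate (n : ℝ) : (fun x : GG => x * mk 0 n) '' slab 0 1 = slab n (n + 1) := by
  ext z
  constructor
  · rintro ⟨x, ⟨h1, h2⟩, rfl⟩
    show n ≤ chi 0 * x.2 + n ∧ chi 0 * x.2 + n < n + 1
    rw [chi_zero]
    constructor <;> linarith
  · rintro ⟨h1, h2⟩
    refine ⟨((z.1, z.2 - n) : ℤ_[2] × ℝ), ⟨?_, ?_⟩, ?_⟩
    · show 0 ≤ z.2 - n
      linarith
    · show z.2 - n < 1
      linarith
    · apply Prod.ext
      · show z.1 + 0 = z.1
        ring
      · show chi 0 * (z.2 - n) + n = z.2
        rw [chi_zero]; ring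

lemma dilate : (fun x : GG => x * mk 1 0) '' slab 0 1 = slab 0 2 := by
  ext z
  constructor
  · rintro ⟨x, ⟨h1, h2⟩, rfl⟩
    show 0 ≤ chi 1 * x.2 + 0 ∧ chi 1 * x.2 + 0 < 2
    rw [chi_one]
    constructor <;> linarith
  · rintro ⟨h1, h2⟩
    refine ⟨((z.1 - 1, z.2 / 2) : ℤ_[2] × ℝ), ⟨?_, ?_⟩, ?_⟩
    · show 0 ≤ z.2 / 2
      linarith
    · show z.2 / 2 < 1
      linarith
    · apply Prod.ext
      · show z.1 - 1 + 1 = z.1
        ring
      · show chi 1 * (z.2 / 2) + 0 = z.2
        rw [chi_one]; ring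

/-- **Theorem.** There is a group with a metrizable, locally compact, second countable topology
(hence sigma-compact) in which all right translations are continuous, such that the only right
invariant Borel measure which is finite on compact sets is zero. In particular there is no nonzero
right invariant Radon measure. -/
theorem result :
    ∃ (G : Type) (_ : Group G) (_ : TopologicalSpace G),
      TopologicalSpace.MetrizableSpace G ∧ LocallyCompactSpace G ∧ SecondCountableTopology G ∧
      RightTopological G ∧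
      ∀ (_ : MeasurableSpace G) (_ : BorelSpace G) (μ : Measure G),
        IsFiniteMeasureOnCompacts μ → RightInvariant μ → μ = 0 := by
  refine ⟨GG, inferInstance, inferInstance,
    inferInstanceAs (TopologicalSpace.MetrizableSpace (ℤ_[2] × ℝ)),
    inferInstanceAs (LocallyCompactSpace (ℤ_[2] × ℝ)),
    inferInstanceAs (SecondCountableTopology (ℤ_[2] × ℝ)), ?_, ?_⟩
  · intro g
    have h1 : Continuous (fun z : ℤ_[2] × ℝ => ((z.1 + g.1, chi g.1 * z.2 + g.2) : ℤ_[2] × ℝ)) := by
      fun_prop
    exact h1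
  · intro _ _ μ hfin hinv
    have hmeas : ∀ a b : ℝ, MeasurableSet (slab a b) := by
      intro a b
      have h1 : MeasurableSet {z : GG | a ≤ z.2} :=
        (isClosed_Ici.preimage cont_snd).measurableSet
      have h2 : MeasurableSet {z : GG | z.2 < b} :=
        (isOpen_Iio.preimage cont_snd).measurableSet
      exact h1.inter h2
    have htr : ∀ n : ℝ, μ (slab n (n + 1)) = μ (slab 0 1) := by
      intro n
      have h1 := hinv (mk 0 n) (slab 0 1) (hmeas 0 1)
      rw [translate n] at h1
      exact h1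
    have hdil : μ (slab 0 2) = μ (slab 0 1) := by
      have h1 := hinv (mk 1 0) (slab 0 1) (hmeas 0 1)
      rw [dilate] at h1
      exact h1
    have hsplit : μ (slab 0 2) = μ (slab 0 1) + μ (slab 1 2) := by
      have h1 : slab 0 2 = slab 0 1 ∪ slab 1 2 := by
        ext z
        constructor
        · rintro ⟨h1, h2⟩
          rcases lt_or_ge z.2 1 with h | h
          · exact Or.inl ⟨h1, h⟩
          · exact Or.inr ⟨h, h2⟩
        · rintro (⟨h1, h2⟩ | ⟨h1, h2⟩)
          · exact ⟨h1, by linarith⟩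
          · exact ⟨by linarith, h2⟩
      rw [h1]
      refine measure_union ?_ (hmeas 1 2)
      rw [Set.disjoint_left]
      rintro z ⟨_, h1⟩ ⟨h2, _⟩
      linarith
    have h12 : μ (slab 1 2) = μ (slab 0 1) := by
      have := htr 1
      norm_num at this
      exact this
    have hlt : μ (slab 0 1) < ⊤ := by
      have hc : IsCompact ((univ : Set ℤ_[2]) ×ˢ (Icc (0 : ℝ) 1)) := isCompact_univ.prod isCompact_Icc
      have hc' : IsCompact ({z : GG | 0 ≤ z.2 ∧ z.2 ≤ 1}) := by
        have h1 : {z : GG | 0 ≤ z.2 ∧ z.2 ≤ 1} = ((univ : Set ℤ_[2]) ×ˢ (Icc (0 : ℝ) 1)) := by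
          ext z
          constructor
          · rintro ⟨h1, h2⟩; exact ⟨mem_univ _, h1, h2⟩
          · rintro ⟨_, h1, h2⟩; exact ⟨h1, h2⟩
        rw [h1]
        exact hc
      refine lt_of_le_of_lt (measure_mono ?_) (hfin.lt_top_of_isCompact hc')
      rintro z ⟨h1, h2⟩
      exact ⟨h1, h2.le⟩
    have h0 : μ (slab 0 1) = 0 := by
      rw [hdil, h12] at hsplit
      by_contra hne
      have := ENNReal.lt_add_right hlt.ne hne
      rw [← hsplit] at this
      exact lt_irrefl _ this
    rw [← Measure.measure_univ_eq_zero]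
    have hcov : (univ : Set GG) = ⋃ n : ℤ, slab (n : ℝ) ((n : ℝ) + 1) := by
      ext z
      simp only [mem_univ, true_iff, mem_iUnion]
      exact ⟨⌊z.2⌋, Int.floor_le _, Int.lt_floor_add_one _⟩
    rw [hcov, measure_iUnion_null_iff]
    intro n
    rw [htr, h0]

end Pool.Agent.Results.MP_d698c5_an.NoHaar
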